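import Pool.Agent.H26.U.Ez

/-!
# Project U: the corner theorem (CRN)
-/

namespace Pool.Agent.H23.U

open Pool.Agent.H26.U

/-! ### the angle -/

/-- the lower half -/
def Low {n : ℕ} (y : ZMod n) : Prop := 2 * y.val < n

instance {n : ℕ} (y : ZMod n) : Decidable (Low y) := by unfold Low; infer_instance

/-- the angle `τ` of `2 y / n`, in `[0, 1)` -/
noncomputable def tau {n : ℕ} (y : ZMod n) : ℝ :=
  2 * (y.val : ℝ) / n - if Low y then 0 else 1

variable {n : ℕ} [NeZero n]

lemma val_pos {y : ZMod n} (hy : y ≠ 0) : 0 < y.val :=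
  Nat.pos_of_ne_zero fun h => hy ((ZMod.val_eq_zero y).mp h)

lemma val_neg {y : ZMod n} (hy : y ≠ 0) : (-y).val = n - y.val := by
  rw [ZMod.neg_val, if_neg hy]

lemma low_neg (hn : Odd n) {y : ZMod n} (hy : y ≠ 0) : Low (-y) ↔ ¬ Low y := by
  unfold Low
  rw [val_neg hy]
  have h1 := ZMod.val_lt y
  obtain ⟨k, hk⟩ := hn
  omega

lemma tau_pos (hn : Odd n) {y : ZMod n} (hy : y ≠ 0) : 0 < tau y := by
  have h1 := ZMod.val_lt y
  have h2 := val_pos hy
  have hn0 : (0 : ℝ) < n := by exact_mod_cast (h2.trans h1)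
  unfold tau
  split_ifs with h
  · have : (0 : ℝ) < y.val := by exact_mod_cast h2
    rw [sub_zero]; positivity
  · unfold Low at h
    have h3 : n < 2 * y.val := by
      obtain ⟨k, hk⟩ := hn
      omega
    have h4 : (n : ℝ) < 2 * (y.val : ℝ) := by exact_mod_cast h3
    have : 1 < 2 * (y.val : ℝ) / n := by rw [lt_div_iff₀ hn0]; linarith
    linarith

lemma tau_lt {y : ZMod n} (hy : y ≠ 0) : tau y < 1 := by
  have h1 := ZMod.val_lt y
  have h2 := val_pos hy
  have hn0 : (0 : ℝ) < n := by exact_mod_cast (h2.trans h1)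
  unfold tau
  split_ifs with h
  · unfold Low at h
    have h4 : 2 * (y.val : ℝ) < (n : ℝ) := by exact_mod_cast h
    rw [sub_zero, div_lt_one hn0]; linarith
  · have h4 : (y.val : ℝ) < (n : ℝ) := by exact_mod_cast h1
    have : 2 * (y.val : ℝ) / n < 2 := by rw [div_lt_iff₀ hn0]; linarith
    linarith

lemma tau_neg (hn : Odd n) {y : ZMod n} (hy : y ≠ 0) : tau (-y) = 1 - tau y := by
  have h1 := ZMod.val_lt y
  have h2 := val_pos hy
  have hn0 : (n : ℝ) ≠ 0 := by
    have : (0 : ℝ) < n := by exact_mod_cast (h2.trans h1)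
    exact this.ne'
  have h3 : ((-y).val : ℝ) = n - y.val := by
    rw [val_neg hy, Nat.cast_sub h1.le]
  unfold tau
  rw [h3]
  by_cases h : Low y
  · rw [if_pos h, if_neg (by rw [low_neg hn hy]; exact not_not.mpr h)]
    field_simp
    ring
  · rw [if_neg h, if_pos (by rw [low_neg hn hy]; exact h)]
    field_simp
    ring

lemma tau_zero : tau (0 : ZMod n) = 0 := by
  unfold tau
  have : Low (0 : ZMod n) := by
    unfold Low
    rw [ZMod.val_zero]
    exact Nat.pos_of_ne_zero (NeZero.ne n)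
  rw [if_pos this, ZMod.val_zero]
  simp

lemma ez_two_mul (y : ZMod n) :
    ez (2 * y) = Complex.exp (((2 * Real.pi * tau y : ℝ) : ℂ) * Complex.I) := by
  have h1 : (2 * y : ZMod n) = ((2 * y.val : ℕ) : ZMod n) := by
    push_cast
    rw [ZMod.natCast_zmod_val]
  rw [h1, ez_natCast]
  unfold tau
  split_ifs
  · congr 1
    push_cast
    ring
  · have h2 : (2 * Real.pi * Complex.I * (((2 * y.val : ℕ) : ℂ) / n)) =
      ((2 * Real.pi * (2 * (y.val : ℝ) / n - 1) : ℝ) : ℂ) * Complex.I +
        2 * Real.pi * Complex.I := by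
      push_cast
      ring
    rw [h2, Complex.exp_add, Complex.exp_two_pi_mul_I, mul_one]

/-- `1 - e^{2 π i t}` -/
lemma one_sub_exp_eq {t : ℝ} (h0 : 0 < t) (h1 : t < 1) :
    1 - Complex.exp (((2 * Real.pi * t : ℝ) : ℂ) * Complex.I) =
      Complex.exp ((Real.log (2 * Real.sin (Real.pi * t)) : ℂ) +
        ((Real.pi * t - Real.pi / 2 : ℝ) : ℂ) * Complex.I) := by
  have hs : 0 < Real.sin (Real.pi * t) := by
    apply Real.sin_pos_of_pos_of_lt_pi
    · have := Real.pi_pos; positivity
    · have := Real.pi_pos; nlinarith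
  rw [Complex.exp_add, ← Complex.ofReal_exp, Real.exp_log (by positivity)]
  apply Complex.ext
  · rw [Complex.sub_re, Complex.exp_ofReal_mul_I_re, Complex.re_ofReal_mul,
      Complex.exp_ofReal_mul_I_re, Real.cos_sub_pi_div_two, Complex.one_re]
    have h2 : 2 * Real.pi * t = 2 * (Real.pi * t) := by ring
    rw [h2, Real.cos_two_mul]
    have := Real.sin_sq_add_cos_sq (Real.pi * t)
    nlinarith
  · rw [Complex.sub_im, Complex.exp_ofReal_mul_I_im, Complex.im_ofReal_mul,
      Complex.exp_ofReal_mul_I_im, Real.sin_sub_pi_div_two, Complex.one_im]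
    have h2 : 2 * Real.pi * t = 2 * (Real.pi * t) := by ring
    rw [h2, Real.sin_two_mul]
    ring

lemma one_sub_cpow {t : ℝ} (h0 : 0 < t) (h1 : t < 1) (c : ℂ) :
    (1 - Complex.exp (((2 * Real.pi * t : ℝ) : ℂ) * Complex.I)) ^ c =
      Complex.exp (((Real.log (2 * Real.sin (Real.pi * t)) : ℂ) +
        ((Real.pi * t - Real.pi / 2 : ℝ) : ℂ) * Complex.I) * c) := by
  rw [one_sub_exp_eq h0 h1, Complex.cpow_def_of_ne_zero (Complex.exp_ne_zero _), Complex.log_exp]
  · simp only [Complex.add_im, Complex.ofReal_im, zero_add, Complex.im_ofReal_mul, Complex.I_im,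
      mul_one]
    have := Real.pi_pos
    nlinarith
  · simp only [Complex.add_im, Complex.ofReal_im, zero_add, Complex.im_ofReal_mul, Complex.I_im,
      mul_one]
    have := Real.pi_pos
    nlinarith

/-! ### the sequence `w` -/

/-- the phase -/
noncomputable def ph {n : ℕ} (y : ZMod n) : ℝ := kap * Real.log (2 * Real.sin (Real.pi * tau y))

/-- `w y = ez (y²) (2 sin π τ)^{i κ}` -/
noncomputable def w {n : ℕ} (y : ZMod n) : ℂ :=
  ez (y ^ 2) * Complex.exp ((ph y : ℂ) * Complex.I)

lemma norm_w (y : ZMod n) : ‖w y‖ = 1 := by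
  rw [w, norm_mul, norm_ez, Complex.norm_exp_ofReal_mul_I, one_mul]

lemma w_zero : w (0 : ZMod n) = 1 := by
  rw [w, ph, tau_zero]
  simp [ez_zero]

lemma w_neg (hn : Odd n) (y : ZMod n) : w (-y) = w y := by
  by_cases hy : y = 0
  · rw [hy, neg_zero]
  · rw [w, w, ph, ph, tau_neg hn hy, neg_sq]
    have : Real.pi * (1 - tau y) = Real.pi - Real.pi * tau y := by ring
    rw [this, Real.sin_pi_sub]

/-- lower half of `w` -/
noncomputable def U {n : ℕ} (y : ZMod n) : ℂ := if y ≠ 0 ∧ Low y then w y else 0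

/-- upper half of `w` -/
noncomputable def V {n : ℕ} (y : ZMod n) : ℂ := if y ≠ 0 ∧ ¬ Low y then w y else 0

lemma U_neg (hn : Odd n) (y : ZMod n) : U (-y) = V y := by
  unfold U V
  by_cases hy : y = 0
  · subst hy; simp
  · have h1 : -y ≠ 0 := neg_ne_zero.mpr hy
    simp only [ne_eq, h1, not_false_eq_true, low_neg hn hy, true_and, hy, w_neg hn]

lemma U_zero : U (0 : ZMod n) = 0 := by simp [U]
lemma V_zero : V (0 : ZMod n) = 0 := by simp [V]

lemma halfFlat_U (hn : Odd n) : HalfFlat (U (n := n)) where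
  zero := U_zero
  half y hy := by
    rw [U_neg hn]
    unfold U V
    by_cases h : Low y
    · left
      simp only [ne_eq, hy, not_false_eq_true, h, and_self, if_true, not_true_eq_false, and_false,
        if_false, norm_w]
    · right
      simp only [ne_eq, hy, not_false_eq_true, h, and_self, if_true, and_false,
        if_false, norm_w]

/-- reversed half -/
noncomputable def Rv {n : ℕ} (y : ZMod n) : ℂ := U ((((n - 1) / 2 + 1 : ℕ) : ZMod n) - y)

lemma halfFlat_Rv (hn : Odd n) (hn3 : 3 ≤ n) : HalfFlat (Rv (n := n)) := by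
  obtain ⟨l, hl⟩ := hn
  have hl2 : (n - 1) / 2 = l := by omega
  have hU0 : ∀ m : ℕ, l + 1 ≤ m → m ≤ n → U ((m : ℕ) : ZMod n) = 0 := by
    intro m h1 h2
    rcases Nat.lt_or_ge m n with h | h
    · unfold U
      rw [if_neg]
      rintro ⟨-, h3⟩
      unfold Low at h3
      rw [ZMod.val_natCast, Nat.mod_eq_of_lt h] at h3
      omega
    · have : m = n := le_antisymm h2 h
      rw [this, ZMod.natCast_self]
      exact U_zero
  have hU1 : ∀ m : ℕ, 1 ≤ m → m ≤ l → ‖U ((m : ℕ) : ZMod n)‖ = 1 := by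
    intro m h1 h2
    have h3 : ((m : ℕ) : ZMod n).val = m := by
      rw [ZMod.val_natCast, Nat.mod_eq_of_lt (by omega)]
    unfold U
    rw [if_pos]
    · exact norm_w _
    · refine ⟨?_, ?_⟩
      · intro h
        rw [h, ZMod.val_zero] at h3
        omega
      · unfold Low
        rw [h3]
        omega
  -- for `1 ≤ v ≤ l`: `Rv v` has norm one and `Rv (-v) = 0`
  have key : ∀ v : ℕ, 1 ≤ v → v ≤ l →
      ‖Rv ((v : ℕ) : ZMod n)‖ = 1 ∧ Rv (-((v : ℕ) : ZMod n)) = 0 := by
    intro v h1 h2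
    unfold Rv
    rw [hl2]
    constructor
    · have : ((l + 1 : ℕ) : ZMod n) - (v : ZMod n) = ((l + 1 - v : ℕ) : ZMod n) := by
        rw [Nat.cast_sub (by omega)]
      rw [this]
      exact hU1 _ (by omega) (by omega)
    · have : ((l + 1 : ℕ) : ZMod n) - (-(v : ZMod n)) = ((l + 1 + v : ℕ) : ZMod n) := by
        push_cast; ring
      rw [this]
      exact hU0 _ (by omega) (by omega)
  constructor
  · unfold Rv
    rw [hl2, sub_zero]
    exact hU0 _ le_rfl (by omega)
  · intro y hy
    have h1 := val_pos hy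
    have h2 := ZMod.val_lt y
    rcases Nat.lt_or_ge l y.val with h | h
    · right
      have h3 := key (n - y.val) (by omega) (by omega)
      have h4 : ((n - y.val : ℕ) : ZMod n) = -y := by
        rw [Nat.cast_sub h2.le, ZMod.natCast_self, ZMod.natCast_zmod_val, zero_sub]
      rw [h4, neg_neg] at h3
      exact ⟨h3.2, h3.1⟩
    · left
      have h3 := key y.val h1 h
      rw [ZMod.natCast_zmod_val] at h3
      exact h3

/-! ### correlations -/

lemma acf_neg' (f : ZMod n → ℂ) (x : ZMod n) : acf f (-x) = star (acf f x) := by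
  unfold acf
  rw [star_sum, ← Equiv.sum_comp (Equiv.subRight x)]
  refine Finset.sum_congr rfl fun y _ => ?_
  simp only [Equiv.subRight_apply, star_mul', star_star]
  rw [show y - x - -x = y by abel, mul_comm]

lemma acf_refl (f : ZMod n → ℂ) (c x : ZMod n) :
    acf (fun y => f (c - y)) x = star (acf f x) := by
  unfold acf
  rw [star_sum]
  rw [← Equiv.sum_comp (Equiv.subLeft (c + x))]
  refine Finset.sum_congr rfl fun y _ => ?_
  simp only [Equiv.subLeft_apply, star_mul', star_star]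
  rw [show c - (c + x - y) = y - x by abel, show c - (c + x - y - x) = y by abel, mul_comm]

lemma acf_V (hn : Odd n) (x : ZMod n) : acf (V (n := n)) x = star (acf (U (n := n)) x) := by
  rw [← acf_refl U 0 x]
  congr 1
  funext y
  rw [zero_sub, U_neg hn]

lemma acf_Rv (x : ZMod n) : acf (Rv (n := n)) x = star (acf (U (n := n)) x) :=
  acf_refl U _ x

lemma w_eq (y : ZMod n) (hy : y ≠ 0) : w y = U y + V y := by
  unfold U V
  by_cases h : Low y
  · simp [hy, h]
  · simp [hy, h]

/-- the weighted sum -/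
noncomputable def wt {n : ℕ} [NeZero n] (x y : ZMod n) : ℂ :=
  U y * star (U (y - x)) + V y * star (V (y - x)) +
    1 / 2 * (U y * star (V (y - x)) + V y * star (U (y - x)))

lemma acf_w (x : ZMod n) (hx : x ≠ 0) :
    acf (w (n := n)) x = ∑ y : ZMod n, (U y + V y) * star (U (y - x) + V (y - x)) +
      (star (w (-x)) + w x) := by
  unfold acf
  have h1 : ∀ y : ZMod n, w y * star (w (y - x)) =
      (U y + V y) * star (U (y - x) + V (y - x)) +
      ((if y = 0 then star (w (-x)) else 0) + (if y = x then w x else 0)) := by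
    intro y
    by_cases hy : y = 0
    · subst hy
      rw [if_pos rfl, if_neg (Ne.symm hx), U_zero, V_zero, w_zero, zero_sub]
      simp
    · by_cases hyx : y = x
      · subst hyx
        rw [if_neg hy, if_pos rfl, sub_self, U_zero, V_zero, w_zero]
        simp
      · rw [if_neg hy, if_neg hyx, w_eq y hy, w_eq (y - x) (sub_ne_zero.mpr hyx)]
        simp
  simp only [h1, Finset.sum_add_distrib]
  rw [Finset.sum_ite_eq', Finset.sum_ite_eq']
  simp

lemma total (hn : Odd n) (x : ZMod n) (hx : x ≠ 0) :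
    acf (U (n := n)) x + acf (Rv (n := n)) x + acf (w (n := n)) x =
      2 * ∑ y : ZMod n, wt x y + (star (w (-x)) + w x) := by
  rw [acf_Rv, ← acf_V hn, acf_w x hx]
  unfold acf
  rw [← add_assoc]
  congr 1
  rw [← Finset.sum_add_distrib, ← Finset.sum_add_distrib, Finset.mul_sum]
  apply Finset.sum_congr rfl
  intro y _
  unfold wt
  rw [star_add]
  ring

lemma kap_exp : Real.exp (Real.pi * kap) = 1 / 2 := by
  unfold kap
  rw [mul_div_cancel₀ _ Real.pi_ne_zero, Real.exp_neg, Real.exp_log (by norm_num), one_div]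

lemma kap_neg : kap < 0 := by
  unfold kap
  have := Real.log_pos (show (1 : ℝ) < 2 by norm_num)
  have h2 := Real.pi_pos
  rw [neg_div]
  exact neg_neg_of_pos (div_pos this h2)

lemma kap_abs : |kap| ≤ 1 / 4 := by
  unfold kap
  have h1 := Real.log_pos (show (1 : ℝ) < 2 by norm_num)
  have h2 := Real.pi_pos
  have h3 := Real.log_two_lt_d9
  have h4 := Real.pi_gt_three
  rw [neg_div, abs_neg, abs_of_pos (div_pos h1 h2), div_le_iff₀ h2]
  linarith

/-- the product formula -/
lemma prod_form (hn : Odd n) (x y : ZMod n) (hy : y ≠ 0) (hyx : y ≠ x) :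
    w y * star (w (y - x)) = (Real.exp (kap * Real.pi * (tau y - tau (y - x))) : ℂ) *
      (ez (-(x ^ 2)) * (ez (x * (2 * y)) * lzterm kap 1 (2 * x) (2 * y))) := by
  have hyx' : y - x ≠ 0 := sub_ne_zero.mpr hyx
  have e1 : lzterm kap 1 (2 * x) (2 * y) =
      Complex.exp (((ph y : ℝ) : ℂ) * Complex.I) *
      Complex.exp (((-ph (y - x) : ℝ) : ℂ) * Complex.I) *
      Complex.exp ((-(kap * Real.pi * (tau y - tau (y - x))) : ℝ) : ℂ) := by
    unfold lzterm
    have h2 : 2 * y - 2 * x = 2 * (y - x) := by ring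
    rw [h2, ez_two_mul, ez_two_mul, Complex.ofReal_one, one_mul, one_mul,
      one_sub_cpow (tau_pos hn hy) (tau_lt hy), one_sub_cpow (tau_pos hn hyx') (tau_lt hyx'),
      ← Complex.exp_add, ← Complex.exp_add, ← Complex.exp_add]
    congr 1
    unfold ph
    push_cast
    have hI := Complex.I_mul_I
    linear_combination (((Real.pi : ℂ) * tau y - Real.pi / 2) * kap -
      ((Real.pi : ℂ) * tau (y - x) - Real.pi / 2) * kap) * hI
  have e2 : star (w (y - x)) = ez (-((y - x) ^ 2)) *
      Complex.exp (((-ph (y - x) : ℝ) : ℂ) * Complex.I) := by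
    unfold w
    rw [star_mul', ← ez_neg]
    congr 1
    rw [Complex.star_def, ← Complex.exp_conj, map_mul, Complex.conj_ofReal, Complex.conj_I]
    congr 1
    push_cast
    ring
  have e3 : ez (y ^ 2) * ez (-((y - x) ^ 2)) = ez (-(x ^ 2)) * ez (x * (2 * y)) := by
    rw [← ez_add, ← ez_add]
    congr 1
    ring
  rw [e2, e1]
  unfold w
  have e4 : (Real.exp (kap * Real.pi * (tau y - tau (y - x))) : ℂ) *
      Complex.exp ((-(kap * Real.pi * (tau y - tau (y - x))) : ℝ) : ℂ) = 1 := by
    rw [← Complex.ofReal_exp, ← Complex.ofReal_mul, ← Real.exp_add]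
    simp
  calc ez (y ^ 2) * Complex.exp (↑(ph y) * Complex.I) *
        (ez (-(y - x) ^ 2) * Complex.exp (↑(-ph (y - x)) * Complex.I))
      = (ez (y ^ 2) * ez (-((y - x) ^ 2))) * (Complex.exp (↑(ph y) * Complex.I) *
          Complex.exp (↑(-ph (y - x)) * Complex.I)) * 1 := by ring
    _ = _ := by rw [e3, ← e4]; ring

/-- differences of the angle -/
lemma tau_sub (hn : Odd n) (x y : ZMod n) (hx : x ≠ 0) (hxl : Low x) (hy : y ≠ 0) (hyx : y ≠ x) :
    tau y - tau (y - x) = 2 * (x.val : ℝ) / n - if (Low y ↔ Low (y - x)) then 0 else 1 := by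
  have h1 := ZMod.val_lt y
  have h2 := val_pos hy
  have h3 := ZMod.val_lt x
  have h4 := val_pos hx
  have h5 := ZMod.val_lt (y - x)
  have hn0 : (n : ℝ) ≠ 0 := by
    have : (0 : ℝ) < n := by exact_mod_cast (h2.trans h1)
    exact this.ne'
  have hne : y.val ≠ x.val := fun h => hyx (ZMod.val_injective n h)
  obtain ⟨l, hl⟩ := hn
  rcases Nat.lt_or_ge x.val y.val with h | h
  · have h6 : (y - x).val = y.val - x.val := ZMod.val_sub h.le
    have h7 : ((y - x).val : ℝ) = y.val - x.val := by rw [h6, Nat.cast_sub h.le]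
    have hLow : Low (y - x) ↔ 2 * (y.val - x.val) < n := by
      unfold Low
      rw [h6]
    have hLy : Low y ↔ 2 * y.val < n := Iff.rfl
    unfold tau
    rw [h7]
    by_cases ha : Low y
    · have hb : Low (y - x) := by
        rw [hLow]
        rw [hLy] at ha
        omega
      simp only [ha, hb, if_true]
      ring
    · by_cases hb : Low (y - x)
      · simp only [ha, hb, if_true, if_false, iff_true]
        ring
      · simp only [ha, hb, if_true, if_false]
        ring
  · have hlt : y.val < x.val := lt_of_le_of_ne h hne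
    have h6 : (y - x).val = y.val + (n - x.val) := by
      have e : y - x = ((y.val + (n - x.val) : ℕ) : ZMod n) := by
        rw [Nat.cast_add, Nat.cast_sub h3.le, ZMod.natCast_self, ZMod.natCast_zmod_val,
          ZMod.natCast_zmod_val]
        ring
      rw [e, ZMod.val_natCast, Nat.mod_eq_of_lt (by omega)]
    have h7 : ((y - x).val : ℝ) = y.val + (n - x.val) := by
      rw [h6, Nat.cast_add, Nat.cast_sub h3.le]
    have hb : ¬ Low (y - x) := by
      unfold Low at hxl ⊢
      rw [h6]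
      omega
    have ha : Low y := by
      unfold Low at hxl ⊢
      omega
    unfold tau
    rw [h7]
    simp only [ha, hb, if_true, if_false, iff_false, not_true_eq_false]
    field_simp
    ring

lemma wt_eq (hn : Odd n) (x y : ZMod n) (hx : x ≠ 0) (hxl : Low x) (hy : y ≠ 0) (hyx : y ≠ x) :
    wt x y = (Real.exp (2 * Real.pi * kap * ((x.val : ℝ) / n)) : ℂ) *
      (ez (-(x ^ 2)) * (ez (x * (2 * y)) * lzterm kap 1 (2 * x) (2 * y))) := by
  have hyx' : y - x ≠ 0 := sub_ne_zero.mpr hyx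
  have h1 : wt x y = ((if (Low y ↔ Low (y - x)) then 1 else 1 / 2 : ℝ) : ℂ) *
      (w y * star (w (y - x))) := by
    unfold wt U V
    by_cases ha : Low y
    · by_cases hb : Low (y - x)
      · simp [ha, hb, hy, hyx']
      · simp [ha, hb, hy, hyx']
    · by_cases hb : Low (y - x)
      · simp [ha, hb, hy, hyx']
      · simp [ha, hb, hy, hyx']
  rw [h1, prod_form hn x y hy hyx, ← mul_assoc, ← Complex.ofReal_mul]
  congr 2
  rw [tau_sub hn x y hx hxl hy hyx]
  split_ifs
  · rw [one_mul]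
    congr 1
    ring
  · rw [← kap_exp, ← Real.exp_add]
    congr 1
    ring

lemma wt_zero (x y : ZMod n) (h : y = 0 ∨ y = x) : wt x y = 0 := by
  unfold wt
  rcases h with h | h
  · rw [h, U_zero, V_zero]; simp
  · rw [h, sub_self, U_zero, V_zero]; simp

lemma unit_two (hn : Odd n) : IsUnit (2 : ZMod n) := by
  have : ((2 : ℕ) : ZMod n) = 2 := by norm_num
  rw [← this, ZMod.isUnit_iff_coprime]
  exact (Nat.coprime_two_left).mpr hn

lemma sum_wt (hn : Odd n) (x : ZMod n) (hx : x ≠ 0) (hxl : Low x) :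
    ∑ y : ZMod n, wt x y = (Real.exp (2 * Real.pi * kap * ((x.val : ℝ) / n)) : ℂ) *
      (ez (-(x ^ 2)) * ∑ u ∈ (Finset.univ.erase (0 : ZMod n)).erase (2 * x),
        ez (((x.val : ℕ) : ZMod n) * u) * lzterm kap 1 (2 * x) u) := by
  have h2 := unit_two hn
  have h20 : ∀ z : ZMod n, 2 * z = 0 → z = 0 := fun z hz => (h2.mul_right_eq_zero).mp hz
  have h2i : ∀ a b : ZMod n, 2 * a = 2 * b → a = b := by
    intro a b h
    have := h20 (a - b) (by rw [mul_sub, h, sub_self])
    exact sub_eq_zero.mp this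
  have e1 : ∑ y : ZMod n, wt x y = ∑ y ∈ (Finset.univ.erase (0 : ZMod n)).erase x, wt x y := by
    symm
    apply Finset.sum_subset (Finset.subset_univ _)
    intro y _ hy
    apply wt_zero
    rw [Finset.mem_erase, Finset.mem_erase] at hy
    by_contra hc
    push Not at hc
    exact hy ⟨hc.2, hc.1, Finset.mem_univ _⟩
  rw [e1, ← mul_assoc, Finset.mul_sum]
  apply Finset.sum_bij (fun y _ => 2 * y)
  · intro y hy
    rw [Finset.mem_erase, Finset.mem_erase] at hy ⊢
    exact ⟨fun h => hy.1 (h2i _ _ h), fun h => hy.2.1 (h20 _ h), Finset.mem_univ _⟩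
  · intro a _ b _ h
    exact h2i a b h
  · intro u hu
    rw [Finset.mem_erase, Finset.mem_erase] at hu
    obtain ⟨c, hc⟩ := h2.exists_right_inv
    have e : 2 * (c * u) = u := by rw [← mul_assoc, hc, one_mul]
    refine ⟨c * u, ?_, e⟩
    rw [Finset.mem_erase, Finset.mem_erase]
    refine ⟨?_, ?_, Finset.mem_univ _⟩
    · intro h
      apply hu.1
      rw [← e, h]
    · intro h
      apply hu.2.1
      rw [← e, h, mul_zero]
  · intro y hy
    rw [Finset.mem_erase, Finset.mem_erase] at hy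
    rw [wt_eq hn x y hx hxl hy.2.1 hy.1, ZMod.natCast_zmod_val]
    ring

/-- the bound for `x` in the lower half -/
lemma bound_low {C : ℝ} (hC : ∀ κ : ℝ, |κ| ≤ 1 / 4 → ∀ (n : ℕ) [NeZero n], 3 ≤ n →
    ∀ x : ℕ, 1 ≤ x → 2 * x ≤ n → ∀ X : ZMod n, X ≠ 0 →
    ‖∑ u ∈ (Finset.univ.erase (0 : ZMod n)).erase X,
      ez ((x : ZMod n) * u) * lzterm κ 1 X u‖ ≤ C)
    (hn : Odd n) (hn3 : 3 ≤ n) (x : ZMod n) (hx : x ≠ 0) (hxl : Low x) :
    ‖acf (U (n := n)) x + acf (Rv (n := n)) x + acf (w (n := n)) x‖ ≤ 2 * C + 2 := by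
  rw [total hn x hx, sum_wt hn x hx hxl]
  have h1 := hC kap kap_abs n hn3 x.val (val_pos hx) (by unfold Low at hxl; exact hxl.le) (2 * x)
    (fun h => hx ((unit_two hn).mul_right_eq_zero.mp h))
  have hC0 : 0 ≤ C := le_trans (norm_nonneg _) h1
  have h2 : Real.exp (2 * Real.pi * kap * ((x.val : ℝ) / n)) ≤ 1 := by
    apply Real.exp_le_one_iff.mpr
    have := Real.pi_pos
    have h3 := kap_neg
    have h4 : (0 : ℝ) ≤ (x.val : ℝ) / n := by positivity
    have h5 : 2 * Real.pi * kap ≤ 0 := by nlinarith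
    exact mul_nonpos_of_nonpos_of_nonneg h5 h4
  have h3 : ‖(star (w (-x)) + w x : ℂ)‖ ≤ 2 := by
    refine le_trans (norm_add_le _ _) ?_
    rw [norm_star, norm_w, norm_w]; norm_num
  refine le_trans (norm_add_le _ _) ?_
  have h4 : ‖(2 : ℂ) * ((Real.exp (2 * Real.pi * kap * ((x.val : ℝ) / n)) : ℂ) *
      (ez (-(x ^ 2)) * ∑ u ∈ (Finset.univ.erase (0 : ZMod n)).erase (2 * x),
        ez (((x.val : ℕ) : ZMod n) * u) * lzterm kap 1 (2 * x) u))‖ ≤ 2 * C := by
    rw [norm_mul, norm_mul, norm_mul, norm_ez, one_mul, Complex.norm_real, Real.norm_eq_abs,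
      Real.abs_exp]
    have : ‖(2 : ℂ)‖ = 2 := by norm_num
    rw [this]
    have h5 := mul_le_mul h2 h1 (norm_nonneg _) (by norm_num)
    linarith
  linarith

theorem CRN (h : S_VBD) : S_CRN := by
  obtain ⟨C, hC⟩ := h
  refine ⟨2 * C + 2, ?_⟩
  intro n _ hn hn3
  refine ⟨U, Rv, w, halfFlat_U hn, halfFlat_Rv hn hn3, norm_w, ?_⟩
  intro x hx
  by_cases hxl : Low x
  · exact bound_low hC hn hn3 x hx hxl
  · have h1 := bound_low hC hn hn3 (-x) (neg_ne_zero.mpr hx) ((low_neg hn hx).mpr hxl)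
    rw [acf_neg', acf_neg', acf_neg', ← star_add, ← star_add, norm_star] at h1
    exact h1

end Pool.Agent.H23.U
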